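import Pool.Agent.K1H34.UNI.Stm

set_option autoImplicit false
set_option linter.unusedSectionVars false

/-! Few copies of `K_{t,t}` imply few edges, with weights. -/

namespace Pool.Agent.K1H45.UNI

open Finset Classical Pool.Agent.K1H34.UNI

/-- weighted power mean inequality -/
lemma pm {α : Type} (s : Finset α) (w z : α → ℝ) (hw : ∀ i ∈ s, 0 ≤ w i) (hz : ∀ i ∈ s, 0 ≤ z i)
    (t : ℕ) (ht : 1 ≤ t) {E : ℝ} (hE : ∑ i ∈ s, w i ≤ E) :
    (∑ i ∈ s, w i * z i) ^ t ≤ E ^ (t - 1) * ∑ i ∈ s, w i * z i ^ t := by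
  have hS : 0 ≤ ∑ i ∈ s, w i * z i ^ t :=
    Finset.sum_nonneg fun i hi => mul_nonneg (hw i hi) (pow_nonneg (hz i hi) _)
  have hW0 : 0 ≤ ∑ i ∈ s, w i := Finset.sum_nonneg hw
  rcases hW0.eq_or_lt with h0 | h0
  · have h1 : ∀ i ∈ s, w i = 0 := (Finset.sum_eq_zero_iff_of_nonneg hw).1 h0.symm
    have h2 : ∑ i ∈ s, w i * z i = 0 :=
      Finset.sum_eq_zero fun i hi => by rw [h1 i hi, zero_mul]
    rw [h2, zero_pow (by omega)]
    have hE0 : 0 ≤ E := by rw [h0]; exact hE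
    positivity
  · set W := ∑ i ∈ s, w i with hW
    have h1 := Real.pow_arith_mean_le_arith_mean_pow s (fun i => w i / W) z
      (fun i hi => div_nonneg (hw i hi) h0.le) (by rw [← Finset.sum_div, ← hW, div_self h0.ne'])
      hz t
    have h2 : ∑ i ∈ s, w i / W * z i = (∑ i ∈ s, w i * z i) / W := by
      rw [Finset.sum_div]; exact Finset.sum_congr rfl fun i _ => by ring
    have h3 : ∑ i ∈ s, w i / W * z i ^ t = (∑ i ∈ s, w i * z i ^ t) / W := by
      rw [Finset.sum_div]; exact Finset.sum_congr rfl fun i _ => by ring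
    rw [h2, h3, div_pow, div_le_iff₀ (pow_pos h0 _)] at h1
    refine h1.trans ?_
    have h4 : W ^ t = W ^ (t - 1) * W := by rw [← pow_succ]; congr 1; omega
    rw [h4]
    have h5 : (∑ i ∈ s, w i * z i ^ t) / W * (W ^ (t - 1) * W) =
        W ^ (t - 1) * ∑ i ∈ s, w i * z i ^ t := by
      field_simp
    rw [h5]
    exact mul_le_mul_of_nonneg_right (pow_le_pow_left₀ h0.le hE _) hS

section

variable {X : Type} [Fintype X] (Γ : SimpleGraph X) (x : X → ℝ)

/-- common neighbours in `N` of the tuple `a` -/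
noncomputable def cn (Γ : SimpleGraph X) (N : Finset X) {t : ℕ} (a : Fin t → X) : Finset X :=
  N.filter (fun w => ∀ i, Γ.Adj (a i) w)

lemma KK_eq (t : ℕ) (v : X) :
    KK Γ t x v = ∑ a ∈ Fintype.piFinset (fun _ : Fin t => nb Γ v),
      (∏ i, x (a i)) * (∑ w ∈ cn Γ (nb Γ v) a, x w) ^ t := by
  unfold KK
  rw [← Finset.sum_subset (Finset.subset_univ (Fintype.piFinset (fun _ : Fin t => nb Γ v)))]
  · refine Finset.sum_congr rfl fun a ha => ?_
    rw [Fintype.mem_piFinset] at ha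
    have h1 : (∑ w ∈ cn Γ (nb Γ v) a, x w) ^ t =
        ∑ b ∈ Fintype.piFinset (fun _ : Fin t => cn Γ (nb Γ v) a), ∏ j, x (b j) := by
      rw [← Finset.prod_univ_sum]
      simp
    rw [h1, Finset.mul_sum]
    rw [← Finset.sum_subset (Finset.subset_univ
      (Fintype.piFinset (fun _ : Fin t => cn Γ (nb Γ v) a)))]
    · refine Finset.sum_congr rfl fun b hb => ?_
      rw [Fintype.mem_piFinset] at hb
      rw [if_pos]
      refine ⟨ha, fun j => ?_, fun i j => ?_⟩
      · exact (Finset.mem_filter.1 (hb j)).1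
      · exact (Finset.mem_filter.1 (hb j)).2 i
    · intro b _ hb
      rw [if_neg]
      rintro ⟨h1, h2, h3⟩
      apply hb
      rw [Fintype.mem_piFinset]
      intro j
      exact Finset.mem_filter.2 ⟨h2 j, fun i => h3 i j⟩
  · intro a _ ha
    refine Finset.sum_eq_zero fun b _ => ?_
    rw [if_neg]
    rintro ⟨h1, h2, h3⟩
    apply ha
    rw [Fintype.mem_piFinset]
    exact h1

lemma TT_eq (v : X) :
    TT Γ x v = ∑ u ∈ nb Γ v, x u * ∑ w ∈ nb Γ v ∩ nb Γ u, x w := by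
  unfold TT
  exact Finset.sum_congr rfl fun u _ => by rw [Finset.mul_sum]

lemma sum_c (t : ℕ) (N : Finset X) :
    ∑ a ∈ Fintype.piFinset (fun _ : Fin t => N), (∏ i, x (a i)) * ∑ w ∈ cn Γ N a, x w =
      ∑ w ∈ N, x w * (∑ u ∈ N ∩ nb Γ w, x u) ^ t := by
  have h1 : ∀ w ∈ N, x w * (∑ u ∈ N ∩ nb Γ w, x u) ^ t =
      ∑ a ∈ Fintype.piFinset (fun _ : Fin t => N),
        if (∀ i, Γ.Adj (a i) w) then (∏ i, x (a i)) * x w else 0 := by
    intro w _
    have h2 : (∑ u ∈ N ∩ nb Γ w, x u) ^ t =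
        ∑ b ∈ Fintype.piFinset (fun _ : Fin t => N ∩ nb Γ w), ∏ j, x (b j) := by
      rw [← Finset.prod_univ_sum]
      simp
    rw [h2, Finset.mul_sum, ← Finset.sum_filter]
    have h3 : Fintype.piFinset (fun _ : Fin t => N ∩ nb Γ w) =
        (Fintype.piFinset (fun _ : Fin t => N)).filter (fun a => ∀ i, Γ.Adj (a i) w) := by
      ext a
      simp only [Fintype.mem_piFinset, Finset.mem_inter, Finset.mem_filter, nb, Finset.mem_univ,
        true_and]
      constructor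
      · intro h
        exact ⟨fun i => (h i).1, fun i => ((h i).2).symm⟩
      · rintro ⟨h, h'⟩ i
        exact ⟨h i, (h' i).symm⟩
    rw [h3]
    exact Finset.sum_congr rfl fun b _ => by ring
  rw [Finset.sum_congr rfl h1, Finset.sum_comm]
  refine Finset.sum_congr rfl fun a _ => ?_
  rw [← Finset.sum_filter, Finset.mul_sum]
  rfl

variable {Γ x}

lemma main (t : ℕ) (ht : 1 ≤ t) (v : X) {E : ℝ} (hE : 0 < E) (hx : ∀ v, 0 ≤ x v)
    (he : es Γ x v ≤ E) : TT Γ x v ^ (t * t) ≤ E ^ (2 * (t * (t - 1))) * KK Γ t x v := by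
  have hd : ∀ w, 0 ≤ ∑ u ∈ nb Γ v ∩ nb Γ w, x u := fun w => Finset.sum_nonneg fun u _ => hx u
  set Q := ∑ a ∈ Fintype.piFinset (fun _ : Fin t => nb Γ v),
    (∏ i, x (a i)) * ∑ w ∈ cn Γ (nb Γ v) a, x w with hQ
  have hQ0 : 0 ≤ Q := Finset.sum_nonneg fun a _ =>
    mul_nonneg (Finset.prod_nonneg fun i _ => hx _) (Finset.sum_nonneg fun w _ => hx w)
  have hT0 : 0 ≤ TT Γ x v := by
    rw [TT_eq]
    exact Finset.sum_nonneg fun u _ => mul_nonneg (hx u) (hd u)
  have h1 : TT Γ x v ^ t ≤ E ^ (t - 1) * Q := by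
    rw [TT_eq, hQ, sum_c]
    exact pm _ _ _ (fun i _ => hx i) (fun i _ => hd i) t ht he
  have h2 : Q ^ t ≤ (E ^ t) ^ (t - 1) * KK Γ t x v := by
    rw [KK_eq, hQ]
    refine pm _ _ _ (fun a _ => Finset.prod_nonneg fun i _ => hx _)
      (fun a _ => Finset.sum_nonneg fun w _ => hx w) t ht ?_
    rw [← Finset.prod_univ_sum (fun _ : Fin t => nb Γ v) (fun _ u => x u)]
    rw [Finset.prod_const, Finset.card_univ, Fintype.card_fin]
    exact pow_le_pow_left₀ (Finset.sum_nonneg fun u _ => hx u) he _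
  calc TT Γ x v ^ (t * t) = (TT Γ x v ^ t) ^ t := by rw [pow_mul]
    _ ≤ (E ^ (t - 1) * Q) ^ t := pow_le_pow_left₀ (pow_nonneg hT0 _) h1 _
    _ = (E ^ (t - 1)) ^ t * Q ^ t := mul_pow _ _ _
    _ ≤ (E ^ (t - 1)) ^ t * ((E ^ t) ^ (t - 1) * KK Γ t x v) :=
        mul_le_mul_of_nonneg_left h2 (by positivity)
    _ = E ^ (2 * (t * (t - 1))) * KK Γ t x v := by
        rw [← mul_assoc, ← pow_mul, ← pow_mul, ← pow_add]
        congr 2
        ring

lemma KK_nonneg (t : ℕ) (v : X) (hx : ∀ v, 0 ≤ x v) : 0 ≤ KK Γ t x v := by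
  rw [KK_eq]
  exact Finset.sum_nonneg fun a _ => mul_nonneg (Finset.prod_nonneg fun i _ => hx _)
    (pow_nonneg (Finset.sum_nonneg fun w _ => hx w) _)

end

theorem t_KST : S_KST := by
  intro X _ Γ t ht x v κ E hκ hE hx he
  have hK := KK_nonneg (Γ := Γ) t v hx
  have hD : 0 < E ^ (2 * t - 2) * κ ^ t ^ 2 := by positivity
  rcases le_or_gt (TT Γ x v) (κ * E ^ 2) with h | h
  · have : 0 ≤ KK Γ t x v / (E ^ (2 * t - 2) * κ ^ t ^ 2) := div_nonneg hK hD.le
    linarith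
  · have hm := main (Γ := Γ) t ht v hE hx he
    have hTE : TT Γ x v ≤ E ^ 2 := by
      rw [TT_eq]
      calc ∑ u ∈ nb Γ v, x u * ∑ w ∈ nb Γ v ∩ nb Γ u, x w ≤ ∑ u ∈ nb Γ v, x u * E :=
            Finset.sum_le_sum fun u _ => mul_le_mul_of_nonneg_left
              ((Finset.sum_le_sum_of_subset_of_nonneg Finset.inter_subset_left
                (fun w _ _ => hx w)).trans he) (hx u)
        _ = es Γ x v * E := by rw [← Finset.sum_mul]; rfl
        _ ≤ E * E := mul_le_mul_of_nonneg_right he hE.le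
        _ = E ^ 2 := by ring
    have hκ1 : κ ≤ 1 := by
      by_contra hlt
      rw [not_le] at hlt
      have : E ^ 2 < κ * E ^ 2 := by nlinarith [pow_pos hE 2]
      linarith
    have hTpos : 0 < TT Γ x v := lt_trans (by positivity) h
    obtain ⟨r, rfl⟩ : ∃ r, t = r + 1 := ⟨t - 1, by omega⟩
    have h1 : TT Γ x v * (κ * E ^ 2) ^ ((r + 1) * (r + 1) - 1) ≤
        TT Γ x v ^ ((r + 1) * (r + 1)) := by
      have e : TT Γ x v ^ ((r + 1) * (r + 1)) =
          TT Γ x v * TT Γ x v ^ ((r + 1) * (r + 1) - 1) := by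
        rw [← pow_succ']
        congr 1
      rw [e]
      exact mul_le_mul_of_nonneg_left (pow_le_pow_left₀ (by positivity) h.le _) hTpos.le
    have h2 := h1.trans hm
    have h3 : TT Γ x v * (κ ^ ((r + 1) * (r + 1) - 1) * E ^ (2 * r)) ≤ KK Γ (r + 1) x v := by
      have e1 : (κ * E ^ 2) ^ ((r + 1) * (r + 1) - 1) =
          κ ^ ((r + 1) * (r + 1) - 1) * E ^ (2 * r) * E ^ (2 * ((r + 1) * (r + 1 - 1))) := by
        rw [mul_pow, ← pow_mul, mul_assoc, ← pow_add]
        congr 2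
        have : (r + 1) * (r + 1) - 1 = r * r + 2 * r := by
          have : (r + 1) * (r + 1) = r * r + 2 * r + 1 := by ring
          omega
        rw [this, Nat.add_sub_cancel]
        ring
      rw [e1] at h2
      have hE' : 0 < E ^ (2 * ((r + 1) * (r + 1 - 1))) := by positivity
      have h4 : (TT Γ x v * (κ ^ ((r + 1) * (r + 1) - 1) * E ^ (2 * r))) *
          E ^ (2 * ((r + 1) * (r + 1 - 1))) ≤
          KK Γ (r + 1) x v * E ^ (2 * ((r + 1) * (r + 1 - 1))) := by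
        calc _ = TT Γ x v * (κ ^ ((r + 1) * (r + 1) - 1) * E ^ (2 * r) *
              E ^ (2 * ((r + 1) * (r + 1 - 1)))) := by ring
          _ ≤ _ := h2
          _ = _ := by ring
      exact le_of_mul_le_mul_right h4 hE'
    have h5 : TT Γ x v ≤ KK Γ (r + 1) x v / (E ^ (2 * (r + 1) - 2) * κ ^ (r + 1) ^ 2) := by
      rw [le_div_iff₀ hD]
      refine le_trans ?_ h3
      have e2 : 2 * (r + 1) - 2 = 2 * r := by omega
      rw [e2]
      have h6 : κ ^ (r + 1) ^ 2 ≤ κ ^ ((r + 1) * (r + 1) - 1) := by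
        apply pow_le_pow_of_le_one hκ.le hκ1
        rw [sq]
        omega
      calc TT Γ x v * (E ^ (2 * r) * κ ^ (r + 1) ^ 2) ≤
            TT Γ x v * (E ^ (2 * r) * κ ^ ((r + 1) * (r + 1) - 1)) := by gcongr
        _ = _ := by ring
    have h7 : 0 ≤ κ * E ^ 2 := by positivity
    linarith

end Pool.Agent.K1H45.UNI
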